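import Pool.Agent.H46FS.Tra
import Pool.Agent.H69N.LA.Uni

/-!
# The derivatives of the critical orbits and the distance to capture

For an arbitrary polynomial `T` of degree at least two the distance from `T`, among the translates
`T + s`, to the polynomials with a captured critical point, times the derivative with respect to `s` of
any point of any critical orbit, is at most `(2 / √π) √(area J)`, where `J` is the Julia set of `T`.
-/

set_option autoImplicit false

open Filter Topology Polynomial MeasureTheory Metric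

namespace Pool.Agent.Results.MP_28f8a1_an.CaptureDistance

/-- The polynomial as a self-map of the plane. -/
def map (T : ℂ[X]) : ℂ → ℂ := fun w : ℂ => T.eval w

/-- The orbit of `z` escapes to infinity. -/
def Escapes (T : ℂ[X]) (z : ℂ) : Prop :=
  Tendsto (fun k : ℕ => ‖(map T)^[k] z‖) atTop atTop

/-- The orbit of `z` is attracted by a sink (attracting periodic point) of `T`. -/
def Attracted (T : ℂ[X]) (z : ℂ) : Prop :=
  ∃ n : ℕ, 0 < n ∧ ∃ x : ℂ, (map T)^[n] x = x ∧ ‖deriv ((map T)^[n]) x‖ < 1 ∧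
    Tendsto (fun k : ℕ => (map T)^[n * k] z) atTop (𝓝 x)

/-- The point `z` belongs to the basin of a parabolic cycle of `T`. -/
def InParabolicBasin (T : ℂ[X]) (z : ℂ) : Prop :=
  ∃ (n : ℕ) (x : ℂ), 0 < n ∧ (map T)^[n] x = x ∧ deriv ((map T)^[n]) x = 1 ∧
    Tendsto (fun k : ℕ => (map T)^[n * k] z) atTop (𝓝 x) ∧ ∀ k : ℕ, (map T)^[n * k] z ≠ x

/-- The point `z` is mapped by an iterate of `T` into a disc on which an iterate of `T` is
conjugate to an irrational rotation (a Siegel disc). -/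
def InSiegelDisc (T : ℂ[X]) (z : ℂ) : Prop :=
  ∃ (m n : ℕ) (r : ℝ) (h : ℂ → ℂ) (ρ : ℂ), 0 < n ∧ 0 < r ∧ ‖ρ‖ = 1 ∧
    (∀ k : ℕ, 0 < k → ρ ^ k ≠ 1) ∧ DifferentiableOn ℂ h (ball 0 r) ∧ Set.InjOn h (ball 0 r) ∧
    (∀ w ∈ ball (0 : ℂ) r, (map T)^[n] (h w) = h (ρ * w)) ∧ (map T)^[m] z ∈ h '' ball 0 r

/-- The points which are in none of the basins and not mapped into a Siegel disc. By Sullivan's
theorem and the classification of periodic Fatou components this is the Julia set of `T`. -/
def Js (T : ℂ[X]) : Set ℂ :=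
  {z : ℂ | ¬ (Escapes T z ∨ Attracted T z ∨ InParabolicBasin T z ∨ InSiegelDisc T z)}

/-- `(1 / π) ∫ dA(z) / |z - a|` over the set `E`. -/
noncomputable def pot (E : Set ℂ) (a : ℂ) : ℝ := 1 / Real.pi * ∫ z in E, ‖z - a‖⁻¹

/-- `(2 / √π)` times the square root of the area of `E`. -/
noncomputable def rootArea (E : Set ℂ) : ℝ := 2 / √Real.pi * √((volume E).toReal)

/-- The derivative at `s = 0` of `(T + s)^n (c)`. -/
noncomputable def D (T : ℂ[X]) (c : ℂ) (n : ℕ) : ℂ :=
  deriv (fun s : ℂ => (map (T + C s))^[n] c) 0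

theorem Js_eq (T : ℂ[X]) : Js T = Pool.Agent.H713R5.QJ.JS T := by
  ext z
  have : (Pool.Agent.H713R5.QJ.Good (Pool.Agent.H713R5.QJ.ev T) z ∨
      Pool.Agent.H713R5.QJ.Para (Pool.Agent.H713R5.QJ.ev T) z ∨
      Pool.Agent.H713R5.QJ.Sieg (Pool.Agent.H713R5.QJ.ev T) z) ↔
      (Escapes T z ∨ Attracted T z ∨ InParabolicBasin T z ∨ InSiegelDisc T z) :=
    or_assoc
  exact (not_congr this).symm

/-- (1) Holomorphic discs `T + g t` without captured critical points move slowly: the derivative of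
`g` times the derivative of any point of a critical orbit of `T` is bounded by the potential at this
point of the Julia set of `T`, and by `(2 / √π)` times the square root of its area. (2) Hence the
distance from `T` to the translates with a captured critical point. -/
theorem result (T : ℂ[X]) (hT : 2 ≤ T.natDegree) :
    (∀ g : ℂ → ℂ, DifferentiableOn ℂ g (ball 0 1) → g 0 = 0 →
      (∀ t ∈ ball (0 : ℂ) 1, ∀ c : ℂ, (derivative T).eval c = 0 →
        ¬ (Escapes (T + C (g t)) c ∨ Attracted (T + C (g t)) c)) →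
      ∀ c : ℂ, (derivative T).eval c = 0 → ∀ n : ℕ,
        ‖D T c n‖ * ‖deriv g 0‖ ≤ pot (Js T) ((map T)^[n] c) ∧
        ‖D T c n‖ * ‖deriv g 0‖ ≤ rootArea (Js T)) ∧
    (∀ c : ℂ, (derivative T).eval c = 0 → ∀ (n : ℕ) (ε : ℝ), 0 < ε →
      pot (Js T) ((map T)^[n] c) < ‖D T c n‖ * ε ∨ rootArea (Js T) < ‖D T c n‖ * ε →
      ∃ s : ℂ, ‖s‖ < ε ∧ ∃ c' : ℂ, (derivative T).eval c' = 0 ∧
        (Escapes (T + C s) c' ∨ Attracted (T + C s) c')) ∧
    (∀ ε : ℝ, rootArea (Js T) < ε → ∃ s : ℂ, ‖s‖ < ε ∧ ∃ c : ℂ, (derivative T).eval c = 0 ∧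
        (Escapes (T + C s) c ∨ Attracted (T + C s) c)) := by
  have hpi := Real.pi_pos
  have h1 : ∀ g : ℂ → ℂ, DifferentiableOn ℂ g (ball 0 1) → g 0 = 0 →
      (∀ t ∈ ball (0 : ℂ) 1, ∀ c : ℂ, (derivative T).eval c = 0 →
        ¬ (Escapes (T + C (g t)) c ∨ Attracted (T + C (g t)) c)) →
      ∀ c : ℂ, (derivative T).eval c = 0 → ∀ n : ℕ,
        ‖D T c n‖ * ‖deriv g 0‖ ≤ pot (Js T) ((map T)^[n] c) ∧
        ‖D T c n‖ * ‖deriv g 0‖ ≤ rootArea (Js T) := by
    intro g hg hg0 hbad c hc n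
    rcases Pool.Agent.H46FS.translation_speed T hT hg hg0 hbad hc n with h | ⟨hKJ, h⟩
    · rw [h, norm_zero, mul_zero]
      constructor
      · unfold pot
        have : 0 ≤ ∫ z in Js T, ‖z - (map T)^[n] c‖⁻¹ := integral_nonneg fun z => by positivity
        positivity
      · unfold rootArea
        positivity
    · have hJc : IsCompact (Js T) := by
        rw [Js_eq, ← hKJ]
        exact Pool.Agent.H46FS.isCompact_KJ T hT
      have h2 : ‖D T c n‖ * ‖deriv g 0‖ ≤ pot (Js T) ((map T)^[n] c) := by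
        have h3 : Real.pi * (‖D T c n‖ * ‖deriv g 0‖) ≤
            2 * (volume (Pool.Agent.H46MB.SQ ((map T)^[n] c) (Js T))).toReal := by
          rw [Js_eq]; exact h
        rw [Pool.Agent.H46MB.vol_SQ_toReal _ hJc.isClosed.measurableSet] at h3
        unfold pot
        rw [one_div, inv_mul_eq_div, le_div_iff₀ hpi]
        linarith
      exact ⟨h2, h2.trans (Pool.Agent.H46FS.pot_le' hJc _)⟩
  have h2 : ∀ c : ℂ, (derivative T).eval c = 0 → ∀ (n : ℕ) (ε : ℝ), 0 < ε →
      pot (Js T) ((map T)^[n] c) < ‖D T c n‖ * ε ∨ rootArea (Js T) < ‖D T c n‖ * ε →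
      ∃ s : ℂ, ‖s‖ < ε ∧ ∃ c' : ℂ, (derivative T).eval c' = 0 ∧
        (Escapes (T + C s) c' ∨ Attracted (T + C s) c') := by
    intro c hc n ε hε hlt
    by_contra hcon
    push Not at hcon
    have hder : deriv (fun s : ℂ => (ε : ℂ) * s) 0 = ε := by
      rw [deriv_const_mul_field, deriv_id'', mul_one]
    have h3 := h1 (fun s => (ε : ℂ) * s) (by fun_prop) (by simp) (by
      intro t ht c' hc' h
      have h4 : ‖(ε : ℂ) * t‖ < ε := by
        rw [norm_mul, Complex.norm_real, Real.norm_of_nonneg hε.le]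
        have := mem_ball_zero_iff.mp ht
        calc ε * ‖t‖ < ε * 1 := mul_lt_mul_of_pos_left this hε
          _ = ε := mul_one ε
      rcases h with h | h
      · exact (hcon _ h4 c' hc').1 h
      · exact (hcon _ h4 c' hc').2 h) c hc n
    rw [hder, Complex.norm_real, Real.norm_of_nonneg hε.le] at h3
    rcases hlt with h | h
    · exact absurd h3.1 (not_le.mpr h)
    · exact absurd h3.2 (not_le.mpr h)
  refine ⟨h1, h2, ?_⟩
  intro ε hε
  have hroot : 0 ≤ rootArea (Js T) := by unfold rootArea; positivity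
  have hε0 : 0 < ε := lt_of_le_of_lt hroot hε
  -- a critical point
  obtain ⟨c, hc⟩ : ∃ c : ℂ, (derivative T).eval c = 0 := by
    apply IsAlgClosed.exists_root
    rw [degree_derivative (by omega)]
    have : 0 < T.natDegree - 1 := by omega
    exact_mod_cast this.ne'
  apply h2 c hc 1 ε hε0
  have hD : D T c 1 = 1 := by
    unfold D
    have h1 : (fun s : ℂ => (map (T + C s))^[1] c) = fun s => T.eval c + s := by
      funext s
      simp [map]
    rw [h1, deriv_const_add, deriv_id'']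
  rw [hD, norm_one, one_mul]
  exact Or.inr hε

end Pool.Agent.Results.MP_28f8a1_an.CaptureDistance
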