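import Mathlib
import Pool.Agent.H69N.LA.Main
import Pool.Agent.H713R3.ZA.TROOT
import Pool.Agent.H46MB.Pot

/-!
# The square root transform of a conformal holomorphic motion of a neighbourhood of infinity

If `H t`, `t` in a disc, is a holomorphic motion of `Ω` which is conformal in the space variable and
`ζ t` a holomorphically moving omitted value, then the branch `h t` of `√(H t (w ^ 2 + ζ 0) - ζ t)` with
`h 0 w = w` is a conformal holomorphic motion of the set `{w | w ^ 2 + ζ 0 ∈ Ω}`.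
-/

set_option autoImplicit false

open Complex Topology Filter Metric MeasureTheory Set

namespace Pool.Agent.H46FS

open Pool.Agent.H713R2 Pool.Agent.H713R2.AR Pool.Agent.H69N.LA
open Pool.Agent.H713R3.ZA (StROOT)
open Pool.Agent.H713R3.ZA.GAIN (gg gg_of_ne isExt UU_eq)
open Pool.Agent.H46MB (SQ)

/-- Holomorphic square roots on convex open sets. -/
theorem sqrt_gen {V : Type} [NormedAddCommGroup V] [NormedSpace ℂ V] [FiniteDimensional ℂ V]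
    {U : Set V} (hUo : IsOpen U) (hUc : Convex ℝ U) {F : V → ℂ} (hF : DifferentiableOn ℂ F U)
    (hne : ∀ s ∈ U, F s ≠ 0) {s₀ : V} (hs₀ : s₀ ∈ U) {u : ℂ} (hu : u ^ 2 = F s₀) :
    ∃ Z : V → ℂ, DifferentiableOn ℂ Z U ∧ Z s₀ = u ∧ (∀ s ∈ U, Z s ^ 2 = F s) ∧
      ∀ Z' : V → ℂ, ContinuousOn Z' U → (∃ s₁ ∈ U, Z' s₁ = Z s₁) → (∀ s ∈ U, Z' s ^ 2 = F s) →
        ∀ s ∈ U, Z' s = Z s := by
  have hGd : DifferentiableOn ℂ (fun p : V × ℂ => p.2 ^ 2 - F p.1) (U ×ˢ univ) := by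
    apply DifferentiableOn.sub
    · exact (differentiable_snd.pow 2).differentiableOn
    · exact hF.comp differentiable_fst.differentiableOn (fun p hp => hp.1)
  have hGc : ContDiffOn ℂ 1 (fun p : V × ℂ => p.2 ^ 2 - F p.1) (U ×ˢ univ) := by
    exact_mod_cast Pool.Agent.Helper540.contDiffOn_of_differentiableOn (hUo.prod isOpen_univ) hGd 1
  obtain ⟨Z, hZd, hZ0, hZr, hZu⟩ := Pool.Agent.H713R3.ZA.root_holds V U (fun s z => z ^ 2 - F s) hUo hUc hGc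
    (by
      intro K hKU hK M
      obtain ⟨A, hA⟩ := hK.exists_bound_of_continuousOn (hF.continuousOn.mono hKU)
      refine ⟨1 + |M| + |A|, fun s hs z hz => ?_⟩
      have h1 := hA s hs
      have h2 : ‖z‖ ^ 2 ≤ ‖z ^ 2 - F s‖ + ‖F s‖ := by
        rw [← norm_pow]
        have := norm_add_le (z ^ 2 - F s) (F s)
        rwa [sub_add_cancel] at this
      by_contra hcon
      push Not at hcon
      have h3 := le_abs_self M
      have h4 := le_abs_self A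
      have h5 := abs_nonneg M
      have h6 := abs_nonneg A
      nlinarith) (by
      intro s hs z hz
      have h1 : deriv (fun z => z ^ 2 - F s) z = 2 * z := by
        have h2 : HasDerivAt (fun z : ℂ => z ^ 2 - F s) (2 * z) z := by
          simpa using (hasDerivAt_pow 2 z).sub_const (F s)
        exact h2.deriv
      rw [h1]
      apply mul_ne_zero two_ne_zero
      rintro rfl
      apply hne s hs
      rw [sub_eq_zero] at hz
      rw [← hz]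
      simp) s₀ hs₀ u (by rw [hu, sub_self])
  refine ⟨Z, hZd, hZ0, fun s hs => sub_eq_zero.mp (hZr s hs), ?_⟩
  intro Z' h1 h2 h3
  exact hZu Z' h1 h2 (fun s hs => by rw [h3 s hs, sub_self])

/-- The square root of a holomorphic function of `(t, w)` which does not vanish and is `w ^ 2` at
time zero. -/
theorem exists_sqrt_mot {ρ : ℝ} (hρ : 0 < ρ) {W : Set ℂ} (hWo : IsOpen W) {F : ℂ × ℂ → ℂ}
    (hF : DifferentiableOn ℂ F (ball (0 : ℂ) ρ ×ˢ W))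
    (hne : ∀ t ∈ ball (0 : ℂ) ρ, ∀ w ∈ W, F (t, w) ≠ 0) (h0 : ∀ w ∈ W, F (0, w) = w ^ 2) :
    ∃ h : ℂ → ℂ → ℂ, DifferentiableOn ℂ (fun p : ℂ × ℂ => h p.1 p.2) (ball (0 : ℂ) ρ ×ˢ W) ∧
      (∀ w ∈ W, h 0 w = w) ∧ (∀ t ∈ ball (0 : ℂ) ρ, ∀ w ∈ W, h t w ^ 2 = F (t, w)) ∧
      ∀ w ∈ W, ∀ Z' : ℂ → ℂ, ContinuousOn Z' (ball (0 : ℂ) ρ) →
        (∃ t₁ ∈ ball (0 : ℂ) ρ, Z' t₁ = h t₁ w) →
        (∀ t ∈ ball (0 : ℂ) ρ, Z' t ^ 2 = F (t, w)) → ∀ t ∈ ball (0 : ℂ) ρ, Z' t = h t w := by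
  classical
  have h0m : (0 : ℂ) ∈ ball (0 : ℂ) ρ := mem_ball_self hρ
  have h1 : ∀ w ∈ W, ∃ Z : ℂ → ℂ, DifferentiableOn ℂ Z (ball 0 ρ) ∧ Z 0 = w ∧
      (∀ t ∈ ball (0 : ℂ) ρ, Z t ^ 2 = F (t, w)) ∧
      ∀ Z' : ℂ → ℂ, ContinuousOn Z' (ball 0 ρ) → (∃ s₁ ∈ ball (0 : ℂ) ρ, Z' s₁ = Z s₁) →
        (∀ t ∈ ball (0 : ℂ) ρ, Z' t ^ 2 = F (t, w)) →
        ∀ t ∈ ball (0 : ℂ) ρ, Z' t = Z t := by
    intro w hw
    exact sqrt_gen (V := ℂ) (U := ball 0 ρ) (F := fun t => F (t, w)) isOpen_ball (convex_ball 0 ρ)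
      (hF.comp (by fun_prop) (fun t ht => ⟨ht, hw⟩)) (fun t ht => hne t ht w hw) h0m (h0 w hw).symm
  choose! Z hZd hZ0 hZr hZu using h1
  refine ⟨fun t w => Z w t, ?_, hZ0, fun t ht w hw => hZr w hw t ht, fun w hw Z' h2 h3 h4 =>
    hZu w hw Z' h2 h3 h4⟩
  rintro ⟨t₁, w₁⟩ ⟨ht₁, hw₁⟩
  apply DifferentiableAt.differentiableWithinAt
  obtain ⟨δ, hδ, hball⟩ := Metric.isOpen_iff.mp hWo w₁ hw₁
  have hU : IsOpen (ball (0 : ℂ) ρ ×ˢ ball w₁ δ) := isOpen_ball.prod isOpen_ball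
  obtain ⟨Y, hYd, hY0, hYr, -⟩ := sqrt_gen (V := ℂ × ℂ)
    (U := ball (0 : ℂ) ρ ×ˢ ball w₁ δ) (F := F) hU
    ((convex_ball 0 ρ).prod (convex_ball w₁ δ))
    (hF.mono (prod_mono subset_rfl hball)) (fun s hs => hne s.1 hs.1 s.2 (hball hs.2))
    (s₀ := (0, w₁)) ⟨h0m, mem_ball_self hδ⟩ (h0 w₁ hw₁).symm
  -- at time zero `Y` is the identity
  obtain ⟨Y₀, -, hY₀0, -, hY₀u⟩ := sqrt_gen (V := ℂ)
    (U := ball w₁ δ) (F := fun w => F (0, w)) isOpen_ball (convex_ball w₁ δ)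
    (hF.comp (f := fun w : ℂ => ((0, w) : ℂ × ℂ)) (by fun_prop) (fun w hw => ⟨h0m, hball hw⟩))
    (fun w hw => hne 0 h0m w (hball hw))
    (s₀ := w₁) (mem_ball_self hδ) (h0 w₁ hw₁).symm
  have hid : ∀ w ∈ ball w₁ δ, Y (0, w) = w := by
    have e0 : ∀ w ∈ ball w₁ δ, id w = Y₀ w := hY₀u id continuousOn_id
      ⟨w₁, mem_ball_self hδ, hY₀0.symm⟩ (fun w hw => (h0 w (hball hw)).symm)
    have e1 : ∀ w ∈ ball w₁ δ, (fun w => Y (0, w)) w = Y₀ w := by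
      apply hY₀u
      · exact hYd.continuousOn.comp (by fun_prop) (fun w hw => ⟨h0m, hw⟩)
      · exact ⟨w₁, mem_ball_self hδ, by
          have := e0 w₁ (mem_ball_self hδ)
          simp only [id] at this
          rw [← this]; exact hY0⟩
      · intro w hw
        exact hYr (0, w) ⟨h0m, hw⟩
    intro w hw
    have := (e1 w hw).trans (e0 w hw).symm
    simpa using this
  have heq : ∀ p ∈ ball (0 : ℂ) ρ ×ˢ ball w₁ δ, Y p = Z p.2 p.1 := by
    rintro ⟨t, w⟩ ⟨ht, hw⟩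
    have hwW := hball hw
    refine hZu w hwW (fun t => Y (t, w)) ?_ ⟨0, h0m, ?_⟩ ?_ t ht
    · exact hYd.continuousOn.comp (by fun_prop) (fun t ht => ⟨ht, hw⟩)
    · rw [hid w hw, hZ0 w hwW]
    · intro t ht
      exact hYr (t, w) ⟨ht, hw⟩
  have hmem : ((t₁, w₁) : ℂ × ℂ) ∈ ball (0 : ℂ) ρ ×ˢ ball w₁ δ := ⟨ht₁, mem_ball_self hδ⟩
  refine (hYd.differentiableAt (hU.mem_nhds hmem)).congr_of_eventuallyEq ?_
  filter_upwards [hU.mem_nhds hmem] with p hp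
  exact (heq p hp).symm

section
variable {Ω : Set ℂ} {R₀ C ρ : ℝ} {H : ℂ → ℂ → ℂ}

theorem isOpen_SQ {a : ℂ} (hΩ : IsOpen Ω) : IsOpen (SQ a Ω) := hΩ.preimage (by fun_prop)

/-- The square root transform of a motion. -/
theorem exists_root_mv (hm : MV ρ Ω H R₀ C) {ζ : ℂ → ℂ} (hζ : DifferentiableOn ℂ ζ (ball 0 ρ))
    {B : ℝ} (hB : ∀ t ∈ ball (0 : ℂ) ρ, ‖ζ t‖ ≤ B)
    (hom : ∀ t ∈ ball (0 : ℂ) ρ, ∀ z ∈ Ω, H t z ≠ ζ t) :
    ∃ (h : ℂ → ℂ → ℂ) (R' C' : ℝ), MV ρ (SQ (ζ 0) Ω) h R' C' ∧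
      ∀ t ∈ ball (0 : ℂ) ρ, ∀ w ∈ SQ (ζ 0) Ω, h t w ^ 2 = H t (w ^ 2 + ζ 0) - ζ t := by
  have h0m : (0 : ℂ) ∈ ball (0 : ℂ) ρ := mem_ball_self hm.ρ0
  have hB0 : 0 ≤ B := (norm_nonneg _).trans (hB 0 h0m)
  have hR₀ := hm.R₀1
  have hC0 : 0 ≤ C := by
    have := hm.hC 0 h0m ((R₀ + 1 : ℝ) : ℂ) (by
      rw [Complex.norm_real, Real.norm_of_nonneg (by linarith)]; linarith)
    exact (norm_nonneg _).trans this
  have hd : DifferentiableOn ℂ (fun p : ℂ × ℂ => H p.1 (p.2 ^ 2 + ζ 0) - ζ p.1)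
      (ball (0 : ℂ) ρ ×ˢ SQ (ζ 0) Ω) := by
    apply DifferentiableOn.sub
    · exact hm.comp (by fun_prop) (fun p hp => ⟨hp.1, hp.2⟩)
    · exact hζ.comp differentiable_fst.differentiableOn (fun p hp => hp.1)
  obtain ⟨h, hhd, hh0, hhs, hhu⟩ := exists_sqrt_mot hm.ρ0 (isOpen_SQ (a := ζ 0) hm.Ωo) hd
    (fun t ht w hw => sub_ne_zero.mpr (hom t ht _ hw))
    (fun w hw => by simp only; rw [hm.H0 _ hw]; ring)
  have hhs' : ∀ t ∈ ball (0 : ℂ) ρ, ∀ w ∈ SQ (ζ 0) Ω, h t w ^ 2 = H t (w ^ 2 + ζ 0) - ζ t := hhs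
  have hcont : ∀ w ∈ SQ (ζ 0) Ω, ContinuousOn (fun s => h s w) (ball (0 : ℂ) ρ) := fun w hw =>
    hhd.continuousOn.comp (f := fun s : ℂ => ((s, w) : ℂ × ℂ)) (by fun_prop) (fun s hs => ⟨hs, hw⟩)
  set C₁ : ℝ := C + 2 * B + 1 with hC₁
  set R' : ℝ := R₀ + B + C₁ with hR'
  have hbig : ∀ w : ℂ, R' < ‖w‖ → R₀ < ‖w ^ 2 + ζ 0‖ := by
    intro w hw
    have h1 : ‖w‖ ^ 2 ≤ ‖w ^ 2 + ζ 0‖ + ‖ζ 0‖ := by
      rw [← norm_pow]
      have := norm_sub_le (w ^ 2 + ζ 0) (ζ 0)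
      rwa [add_sub_cancel_right] at this
    have h2 := hB 0 h0m
    nlinarith
  have hfar : ∀ w : ℂ, R' < ‖w‖ → w ∈ SQ (ζ 0) Ω := fun w hw => hm.far _ (hbig w hw)
  refine ⟨h, R', C₁, ⟨hm.ρ0, isOpen_SQ hm.Ωo, hhd, hh0, ?_, ?_, hfar, ?_⟩, hhs'⟩
  · -- injectivity
    intro t ht w hw w' hw' heq
    have heq' : h t w = h t w' := heq
    have h1 : H t (w ^ 2 + ζ 0) = H t (w' ^ 2 + ζ 0) := by
      have h2 := hhs' t ht w hw
      have h3 := hhs' t ht w' hw'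
      rw [heq', h3] at h2
      exact (sub_left_injective h2).symm
    have h2 : w ^ 2 = w' ^ 2 := by
      have := hm.hi t ht hw hw' h1
      exact add_right_cancel this
    rcases sq_eq_sq_iff_eq_or_eq_neg.mp h2 with h3 | h3
    · exact h3
    · exfalso
      -- the branch is odd
      have hneg : ∀ s ∈ ball (0 : ℂ) ρ, -(h s w') = h s w := by
        refine hhu w hw (fun s => -(h s w')) (hcont w' hw').neg ⟨0, h0m, ?_⟩ ?_
        · rw [hh0 w hw, hh0 w' hw', h3]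
        · intro s hs
          simp only
          rw [neg_sq, hhs' s hs w' hw', ← h2]
      have h4 := hneg t ht
      rw [heq'] at h4
      have h5 : h t w' = 0 := by
        have : (2 : ℂ) * h t w' = 0 := by linear_combination -h4
        exact (mul_eq_zero.mp this).resolve_left two_ne_zero
      have h6 := hhs' t ht w' hw'
      rw [h5] at h6
      have h7 : H t (w' ^ 2 + ζ 0) - ζ t = 0 := by rw [← h6]; ring
      exact hom t ht _ hw' (sub_eq_zero.mp h7)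
  · linarith
  · -- far bound
    intro t ht w hw
    have hwΩ := hfar w hw
    have hw1 : 1 ≤ ‖w‖ := by linarith
    have hwpos : 0 < ‖w‖ := by linarith
    have hwC : C₁ < ‖w‖ := by linarith
    have key : ∀ s ∈ ball (0 : ℂ) ρ, ‖h s w - w‖ * ‖h s w + w‖ ≤ C₁ := by
      intro s hs
      rw [← norm_mul]
      have h1 : (h s w - w) * (h s w + w) = (H s (w ^ 2 + ζ 0) - (w ^ 2 + ζ 0)) + (ζ 0 - ζ s) := by
        have := hhs' s hs w hwΩ
        linear_combination this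
      rw [h1]
      have h2 := hm.hC s hs _ (hbig w hw)
      have h3 := hB s hs
      have h4 := hB 0 h0m
      calc ‖(H s (w ^ 2 + ζ 0) - (w ^ 2 + ζ 0)) + (ζ 0 - ζ s)‖ ≤
          ‖H s (w ^ 2 + ζ 0) - (w ^ 2 + ζ 0)‖ + ‖ζ 0 - ζ s‖ := norm_add_le _ _
        _ ≤ C + (B + B) := by
            refine add_le_add h2 ((norm_sub_le _ _).trans (add_le_add h4 h3))
        _ ≤ C₁ := by linarith
    have hne : ∀ s ∈ ball (0 : ℂ) ρ, ‖h s w - w‖ ≠ ‖w‖ := by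
      intro s hs heq
      have h1 := key s hs
      have h2 : ‖w‖ ≤ ‖h s w + w‖ := by
        have h3 : ‖(2 : ℂ) * w‖ ≤ ‖h s w + w‖ + ‖h s w - w‖ := by
          have h4 : (2 : ℂ) * w = (h s w + w) - (h s w - w) := by ring
          rw [h4]; exact norm_sub_le _ _
        rw [norm_mul] at h3
        have h5 : ‖(2 : ℂ)‖ = 2 := by simp
        rw [h5] at h3
        linarith
      rw [heq] at h1
      nlinarith
    have hlt : ‖h t w - w‖ < ‖w‖ := by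
      by_contra hcon
      push Not at hcon
      have hc : ContinuousOn (fun s => ‖h s w - w‖) (ball (0 : ℂ) ρ) :=
        ((hcont w hwΩ).sub continuousOn_const).norm
      have hpre : IsPreconnected (ball (0 : ℂ) ρ) := (convex_ball 0 ρ).isPreconnected
      have h1 := hpre.intermediate_value h0m ht hc
      have h2 : ‖w‖ ∈ Icc (‖h 0 w - w‖) (‖h t w - w‖) := by
        refine ⟨?_, hcon⟩
        rw [hh0 w hwΩ, sub_self, norm_zero]
        exact norm_nonneg _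
      obtain ⟨s, hs, hs'⟩ := h1 h2
      exact hne s hs hs'
    have h1 := key t ht
    have h2 : 1 ≤ ‖h t w + w‖ := by
      have h3 : ‖(2 : ℂ) * w‖ ≤ ‖h t w + w‖ + ‖h t w - w‖ := by
        have h4 : (2 : ℂ) * w = (h t w + w) - (h t w - w) := by ring
        rw [h4]; exact norm_sub_le _ _
      rw [norm_mul] at h3
      have h5 : ‖(2 : ℂ)‖ = 2 := by simp
      rw [h5] at h3
      linarith
    calc ‖h t w - w‖ = ‖h t w - w‖ * 1 := (mul_one _).symm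
      _ ≤ ‖h t w - w‖ * ‖h t w + w‖ := mul_le_mul_of_nonneg_left h2 (norm_nonneg _)
      _ ≤ C₁ := h1

/-- The first coefficient of the square root transform. -/
theorem coeff_root (hm : MV ρ Ω H R₀ C) {ζ : ℂ → ℂ} {h : ℂ → ℂ → ℂ} {R' C' : ℝ}
    (hh : MV ρ (SQ (ζ 0) Ω) h R' C')
    (hhs : ∀ t ∈ ball (0 : ℂ) ρ, ∀ w ∈ SQ (ζ 0) Ω, h t w ^ 2 = H t (w ^ 2 + ζ 0) - ζ t)
    {t : ℂ} (ht : t ∈ ball (0 : ℂ) ρ) :
    2 * tc (gg (h t)) 2 = ζ 0 - ζ t + tc (gg (H t)) 1 := by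
  have hR₀ : 0 < R₀ := by have := hm.R₀1; linarith
  have hR' : 0 < R' := by have := hh.R₀1; linarith
  have hgH : IsExt R₀⁻¹ (gg (H t)) := by
    apply isExt hm.R₀1 _ _ (hm.hC t ht)
    · exact hm.hd.comp (f := fun z : ℂ => ((t, z) : ℂ × ℂ)) (by fun_prop)
        (fun z hz => ⟨ht, hm.far z hz⟩)
    · exact fun z hz w hw hzw => hm.hi t ht (hm.far z hz) (hm.far w hw) hzw
  have hgh : IsExt R'⁻¹ (gg (h t)) := by
    apply isExt hh.R₀1 _ _ (hh.hC t ht)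
    · exact hh.hd.comp (f := fun z : ℂ => ((t, z) : ℂ × ℂ)) (by fun_prop)
        (fun z hz => ⟨ht, hh.far z hz⟩)
    · exact fun z hz w hw hzw => hh.hi t ht (hh.far z hz) (hh.far w hw) hzw
  set a : ℂ := ζ 0 with ha
  -- a small radius
  obtain ⟨r, hr0, hr1, hrR, hrR', hra⟩ : ∃ r : ℝ, 0 < r ∧ r < 1 ∧ r < R'⁻¹ ∧ r ^ 2 * 2 < R₀⁻¹ ∧
      ‖a‖ * r ^ 2 < 1 / 2 := by
    have hc1 : Tendsto (fun r : ℝ => r ^ 2 * 2) (𝓝 0) (𝓝 (0 ^ 2 * 2)) :=
      (Continuous.tendsto (by fun_prop) 0)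
    have hc2 : Tendsto (fun r : ℝ => ‖a‖ * r ^ 2) (𝓝 0) (𝓝 (‖a‖ * 0 ^ 2)) :=
      (Continuous.tendsto (by fun_prop) 0)
    have e1 : ∀ᶠ r : ℝ in 𝓝 0, r ^ 2 * 2 < R₀⁻¹ :=
      hc1.eventually (gt_mem_nhds (by simp [hR₀]))
    have e2 : ∀ᶠ r : ℝ in 𝓝 0, ‖a‖ * r ^ 2 < 1 / 2 :=
      hc2.eventually (gt_mem_nhds (by norm_num))
    have e3 : ∀ᶠ r : ℝ in 𝓝[>] 0, r < 1 ∧ r < R'⁻¹ := by
      filter_upwards [Ioo_mem_nhdsGT (show (0 : ℝ) < 1 by norm_num),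
        Ioo_mem_nhdsGT (inv_pos.mpr hR')] with r h1 h2
      exact ⟨h1.2, h2.2⟩
    have e4 : ∀ᶠ r : ℝ in 𝓝[>] (0 : ℝ), 0 < r := self_mem_nhdsWithin
    obtain ⟨r, ⟨h1, h2⟩, h3, h4⟩ := (((e1.and e2).filter_mono nhdsWithin_le_nhds).and
      (e3.and e4)).exists
    exact ⟨r, h4, h3.1, h3.2, h1, h2⟩
  -- the comparison function
  set K : ℂ → ℂ := fun v => (1 + a * v) * gg (H t) (v / (1 + a * v)) - ζ t * v with hK
  have hden : ∀ v ∈ ball (0 : ℂ) (r ^ 2), 1 / 2 < ‖1 + a * v‖ := by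
    intro v hv
    rw [mem_ball_zero_iff] at hv
    have h1 : ‖a * v‖ ≤ ‖a‖ * r ^ 2 := by
      rw [norm_mul]
      exact mul_le_mul_of_nonneg_left hv.le (norm_nonneg _)
    have h2 : ‖(1 : ℂ)‖ ≤ ‖1 + a * v‖ + ‖a * v‖ := by
      have := norm_sub_le (1 + a * v) (a * v)
      rwa [add_sub_cancel_right] at this
    rw [norm_one] at h2
    linarith
  have hden0 : ∀ v ∈ ball (0 : ℂ) (r ^ 2), 1 + a * v ≠ 0 := by
    intro v hv h
    have := hden v hv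
    rw [h, norm_zero] at this
    linarith
  have hmap : ∀ v ∈ ball (0 : ℂ) (r ^ 2), v / (1 + a * v) ∈ ball (0 : ℂ) R₀⁻¹ := by
    intro v hv
    have h1 := hden v hv
    rw [mem_ball_zero_iff] at hv ⊢
    rw [norm_div, div_lt_iff₀ (by linarith)]
    have h2 : 0 < R₀⁻¹ := inv_pos.mpr hR₀
    nlinarith
  have hdivd : DifferentiableOn ℂ (fun v : ℂ => v / (1 + a * v)) (ball (0 : ℂ) (r ^ 2)) :=
    don_div (by fun_prop) (by fun_prop) hden0
  have hKd : DifferentiableOn ℂ K (ball (0 : ℂ) (r ^ 2)) := by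
    apply DifferentiableOn.sub
    · apply DifferentiableOn.mul (by fun_prop)
      exact hgH.diff.comp hdivd hmap
    · fun_prop
  have hsq : ∀ x ∈ ball (0 : ℂ) r, gg (h t) x ^ 2 = K (x ^ 2) := by
    intro x hx
    by_cases hx0 : x = 0
    · rw [hx0]
      simp [hK, gg]
    · have hxn := mem_ball_zero_iff.mp hx
      have hx2 : x ^ 2 ∈ ball (0 : ℂ) (r ^ 2) := by
        rw [mem_ball_zero_iff, norm_pow]
        exact pow_lt_pow_left₀ hxn (norm_nonneg _) two_ne_zero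
      have hxR : R' < ‖x⁻¹‖ := by
        rw [norm_inv]
        exact (lt_inv_comm₀ (norm_pos_iff.2 hx0) hR').1 (hxn.trans hrR)
      have h1 := hhs t ht x⁻¹ (hh.far _ hxR)
      have hd0 := hden0 _ hx2
      have hx20 : x ^ 2 ≠ 0 := pow_ne_zero _ hx0
      have hy0 : x ^ 2 / (1 + a * x ^ 2) ≠ 0 := div_ne_zero hx20 hd0
      have hyinv : (x ^ 2 / (1 + a * x ^ 2))⁻¹ = x⁻¹ ^ 2 + a := by
        rw [inv_div]
        field_simp
      simp only [hK]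
      rw [gg_of_ne hx0, gg_of_ne hy0, hyinv, mul_pow, h1]
      generalize H t (x⁻¹ ^ 2 + a) = Hv
      have e1 : (1 + a * x ^ 2) * (x ^ 2 / (1 + a * x ^ 2) * Hv) = x ^ 2 * Hv := by
        rw [← mul_assoc, mul_div_cancel₀ _ hd0]
      rw [e1]
      ring
  have hps : PowSeq (pc (gg (h t))) := powSeq_pc (inv_pos.mpr hR') hgh.diff hgh.zero
  have hpc2 : ∀ k, pc (gg (h t)) 2 k = if 2 ∣ k then tc K (k / 2) else 0 := by
    intro k
    have h1 : tc (fun x => K (x ^ 2)) k = if 2 ∣ k then tc K (k / 2) else 0 :=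
      tc_comp_pow (by norm_num) hr0 le_rfl hKd k
    rw [← h1]
    unfold pc
    apply tc_congr
    filter_upwards [ball_mem_nhds (0 : ℂ) hr0] with x hx using hsq x hx
  have hKtc : tc K 1 = a - ζ t + tc (gg (H t)) 1 := by
    have hr2 : 0 < r ^ 2 := by positivity
    have h0r : (0 : ℂ) ∈ ball (0 : ℂ) (r ^ 2) := mem_ball_self hr2
    have htc1 : ∀ F : ℂ → ℂ, tc F 1 = deriv F 0 := by
      intro F
      simp [tc, iteratedDeriv_one]
    rw [htc1, htc1]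
    have hg : HasDerivAt (gg (H t)) (deriv (gg (H t)) 0) 0 :=
      (hgH.diff.differentiableAt (ball_mem_nhds 0 (inv_pos.mpr hR₀))).hasDerivAt
    have hd1 : HasDerivAt (fun v : ℂ => 1 + a * v) a 0 := by
      simpa using ((hasDerivAt_id (0 : ℂ)).const_mul a).const_add 1
    have hq : HasDerivAt (fun v : ℂ => v / (1 + a * v)) 1 0 := by
      have := (hasDerivAt_id (0 : ℂ)).fun_div hd1 (by simp)
      simpa using this
    have hg' : HasDerivAt (gg (H t)) (deriv (gg (H t)) 0) ((fun v : ℂ => v / (1 + a * v)) 0) := by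
      simpa using hg
    have hcomp := hg'.comp (0 : ℂ) hq
    have hz : gg (H t) 0 = 1 := by simp [gg]
    have hmul := hd1.mul hcomp
    have hid : HasDerivAt (fun v : ℂ => ζ t * v) (ζ t) 0 := by
      simpa using (hasDerivAt_id (0 : ℂ)).const_mul (ζ t)
    have hall := hmul.sub hid
    have heq : deriv K 0 = _ := hall.deriv
    rw [heq]
    simp [hz]
    ring
  have h11 : pc (gg (h t)) 1 1 = 0 := by
    have h2 := hps.low (k := 1) le_rfl (fun i hi hik => by omega) 2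
    rw [hpc2 1, if_neg (by norm_num)] at h2
    have h3 : ((2 : ℕ) : ℂ) ≠ 0 := by norm_num
    exact (mul_eq_zero.mp h2.symm).resolve_left h3
  have h12 : 2 * pc (gg (h t)) 1 2 = a - ζ t + tc (gg (H t)) 1 := by
    have h2 := hps.low (k := 2) (by norm_num) (fun i hi hik => by
      have : i = 1 := by omega
      rw [this]; exact h11) 2
    rw [hpc2 2, if_pos (dvd_refl 2)] at h2
    norm_num at h2
    rw [← h2]
    exact hKtc
  have h13 : pc (gg (h t)) 1 2 = tc (gg (h t)) 2 := by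
    simp only [pc, pow_one]
  rw [← h13]
  exact h12

/-- The speed of an omitted value, with bounded motion of the value. -/
theorem speed_aux (hm : MV ρ Ω H R₀ C) {ζ : ℂ → ℂ} (hζ : DifferentiableOn ℂ ζ (ball 0 ρ))
    {B : ℝ} (hB : ∀ t ∈ ball (0 : ℂ) ρ, ‖ζ t‖ ≤ B)
    (hom : ∀ t ∈ ball (0 : ℂ) ρ, ∀ z ∈ Ω, H t z ≠ ζ t) :
    Real.pi * ρ * ‖deriv ζ 0 - deriv (fun t => tc (gg (H t)) 1) 0‖ ≤
      2 * (volume (SQ (ζ 0) Ωᶜ)).toReal := by
  have hpi := Real.pi_pos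
  have hρ := hm.ρ0
  have h0m : (0 : ℂ) ∈ ball (0 : ℂ) ρ := mem_ball_self hρ
  obtain ⟨h, R', C', hh, hhs⟩ := exists_root_mv hm hζ hB hom
  have hmain := hh.main 0
  have hder : deriv (fun t => tc (gg (h t)) (0 + 2)) 0 =
      -(deriv ζ 0 - deriv (fun t => tc (gg (H t)) 1) 0) / 2 := by
    have h2 : (fun t => tc (gg (h t)) (0 + 2)) =ᶠ[𝓝 0]
        fun t => (ζ 0 - ζ t + tc (gg (H t)) 1) / 2 := by
      filter_upwards [isOpen_ball.mem_nhds h0m] with t ht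
      have := coeff_root hm hh hhs ht
      simp only [zero_add]
      linear_combination this / 2
    rw [h2.deriv_eq]
    have h3 : HasDerivAt ζ (deriv ζ 0) 0 :=
      (hζ.differentiableAt (isOpen_ball.mem_nhds h0m)).hasDerivAt
    have h4 : HasDerivAt (fun t => tc (gg (H t)) 1) (deriv (fun t => tc (gg (H t)) 1) 0) 0 :=
      ((hm.β_diff 1).differentiableAt (isOpen_ball.mem_nhds h0m)).hasDerivAt
    have h5 := (((h3.const_sub (ζ 0)).add h4).div_const 2).deriv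
    refine Eq.trans h5 ?_
    ring
  rw [hder] at hmain
  have hc : (SQ (ζ 0) Ω)ᶜ = SQ (ζ 0) Ωᶜ := rfl
  rw [hc] at hmain
  simp only [mul_zero, pow_zero] at hmain
  rw [setIntegral_const, smul_eq_mul, mul_one] at hmain
  set V : ℝ := (volume (SQ (ζ 0) Ωᶜ)).toReal with hV
  have hV' : volume.real (SQ (ζ 0) Ωᶜ) = V := rfl
  rw [hV', ← sq] at hmain
  have hV0 : 0 ≤ V := ENNReal.toReal_nonneg
  have h3 := (pow_le_pow_iff_left₀ (by positivity) hV0 two_ne_zero).mp hmain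
  rw [norm_div, norm_neg] at h3
  have h4 : ‖(2 : ℂ)‖ = 2 := by simp
  rw [h4] at h3
  linarith

/-- restriction to a smaller disc -/
theorem MV_mono (hm : MV ρ Ω H R₀ C) {ρ' : ℝ} (h0 : 0 < ρ') (h : ρ' ≤ ρ) : MV ρ' Ω H R₀ C where
  ρ0 := h0
  Ωo := hm.Ωo
  hd := hm.hd.mono (prod_mono (ball_subset_ball h) subset_rfl)
  H0 := hm.H0
  hi := fun t ht => hm.hi t (ball_subset_ball h ht)
  R₀1 := hm.R₀1
  far := hm.far
  hC := fun t ht => hm.hC t (ball_subset_ball h ht)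

/-- **The speed of a holomorphically moving omitted value of a conformal motion.** -/
theorem speed (hm : MV ρ Ω H R₀ C) {ζ : ℂ → ℂ} (hζ : DifferentiableOn ℂ ζ (ball 0 ρ))
    (hom : ∀ t ∈ ball (0 : ℂ) ρ, ∀ z ∈ Ω, H t z ≠ ζ t) :
    Real.pi * ρ * ‖deriv ζ 0 - deriv (fun t => tc (gg (H t)) 1) 0‖ ≤
      2 * (volume (SQ (ζ 0) Ωᶜ)).toReal := by
  have hρ := hm.ρ0
  have key : ∀ ρ' ∈ Ioo 0 ρ, Real.pi * ρ' * ‖deriv ζ 0 - deriv (fun t => tc (gg (H t)) 1) 0‖ ≤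
      2 * (volume (SQ (ζ 0) Ωᶜ)).toReal := by
    intro ρ' hρ'
    obtain ⟨B, hB⟩ := (isCompact_closedBall (0 : ℂ) ρ').exists_bound_of_continuousOn
      (hζ.continuousOn.mono (closedBall_subset_ball hρ'.2))
    exact speed_aux (MV_mono hm hρ'.1 hρ'.2.le) (hζ.mono (ball_subset_ball hρ'.2.le))
      (fun t ht => hB t (ball_subset_closedBall ht))
      (fun t ht => hom t (ball_subset_ball hρ'.2.le ht))
  have hc : Tendsto (fun r : ℝ => Real.pi * r *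
      ‖deriv ζ 0 - deriv (fun t => tc (gg (H t)) 1) 0‖) (𝓝[<] ρ)
      (𝓝 (Real.pi * ρ * ‖deriv ζ 0 - deriv (fun t => tc (gg (H t)) 1) 0‖)) := by
    apply Tendsto.mono_left _ nhdsWithin_le_nhds
    exact (Continuous.tendsto (by fun_prop) ρ)
  apply le_of_tendsto hc
  filter_upwards [Ioo_mem_nhdsLT hρ] with r hr using key r hr

end

end Pool.Agent.H46FS
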