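import Mathlib
import Pool.Agent.H69N.LA.Fm5
import Pool.Agent.H46FS.Mot

/-!
# The speed of the holomorphically moving points of the filled Julia sets in holomorphic families of
polynomials without escaping critical points
-/

set_option autoImplicit false

open Complex Topology Filter Metric MeasureTheory Set Polynomial

namespace Pool.Agent.H46FS

open Pool.Agent.H713R2 Pool.Agent.H713R2.AR Pool.Agent.H69N.LA
open Pool.Agent.H713R3.ZA (StROOT StINV StBSUM KJ QQ)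
open Pool.Agent.H713R3.ZA.GAIN (gg gg_of_ne isExt UU_eq)
open Pool.Agent.H46MB (SQ isCompact_SQ vol_SQ_toReal vol_SQ_le)

section
variable {a : ℂ} {n : ℕ} {ρ A : ℝ} {f : ℂ → ℂ[X]} {R C₁ R₁ R₃ : ℝ} {ψ φ : ℂ × ℂ → ℂ}

/-- The motion at level `N`, with its functional equation. -/
theorem exists_mv' (hf : FA a n ρ A f) (hb : BU a n ρ f R C₁ R₁ R₃ ψ φ) (N : ℕ) :
    ∃ Φ : ℂ → ℂ → ℂ, MV ρ (WU f R₃ N) Φ R₃ (2 * C₁) ∧
      (∀ t ∈ ball (0 : ℂ) ρ, ∀ z : ℂ, R₃ < ‖z‖ → Φ t z = farU ψ φ t z) ∧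
      ∀ t ∈ ball (0 : ℂ) ρ, ∀ z ∈ WU f R₃ N, (fv f t)^[N] (Φ t z) = ψ (t, PU f φ N z) := by
  have h0 := mem_ball_self (x := (0 : ℂ)) hf.ρ0
  obtain ⟨Φ, hΦd, hΦ0, hΦr, hΦu⟩ := exists_mot Pool.Agent.H713R3.ZA.root_holds hf hb N
  have hlarge : ∀ z : ℂ, R₃ < ‖z‖ → z ∈ WU f R₃ N := fun z hz => hb.large_of_large h0 hz N
  have hPeq : ∀ t ∈ ball (0 : ℂ) ρ, ∀ z z' : ℂ, z ∈ WU f R₃ N → z' ∈ WU f R₃ N →
      ψ (t, PU f φ N z) = ψ (t, PU f φ N z') → PU f φ N z = PU f φ N z' :=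
    fun t ht z z' h1 h2 h3 => hb.ψi _ ht (PU_norm hf hb h1) (PU_norm hf hb h2) h3
  have hcont : ∀ z ∈ WU f R₃ N, ContinuousOn (fun s => Φ s z) (ball (0 : ℂ) ρ) := fun z hz =>
    hΦd.continuousOn.comp (f := fun s : ℂ => ((s, z) : ℂ × ℂ)) (by fun_prop) (fun s hs => ⟨hs, hz⟩)
  have hinj : ∀ t ∈ ball (0 : ℂ) ρ, InjOn (Φ t) (WU f R₃ N) := by
    intro t ht z hz z' hz' h
    have e1 : PU f φ N z = PU f φ N z' := by
      apply hPeq t ht z z' hz hz'
      rw [← hΦr t ht z hz, ← hΦr t ht z' hz', h]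
    have e2 := hΦu z hz (fun s => Φ s z') (hcont z' hz') ⟨t, ht, h.symm⟩
      (fun s hs => by rw [hΦr s hs z' hz', e1]) 0 h0
    simp only [hΦ0 z hz, hΦ0 z' hz'] at e2
    exact e2.symm
  have hfar : ∀ t ∈ ball (0 : ℂ) ρ, ∀ z : ℂ, R₃ < ‖z‖ → Φ t z = farU ψ φ t z := by
    intro t ht z hz
    have hfc : ContinuousOn (fun s => farU ψ φ s z) (ball (0 : ℂ) ρ) :=
      (farU_diff hf hb).continuousOn.comp (f := fun s : ℂ => ((s, z) : ℂ × ℂ)) (by fun_prop)
        (fun s hs => ⟨hs, hz⟩)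
    exact (hΦu z (hlarge z hz) (fun s => farU ψ φ s z) hfc
      ⟨0, h0, by rw [farU_zero hf hb hz, hΦ0 z (hlarge z hz)]⟩
      (fun s hs => far_root hf hb hs hz N) t ht).symm
  refine ⟨Φ, ⟨hf.ρ0, isOpen_WU f R₃ N, hΦd, hΦ0, hinj, ?_, hlarge, ?_⟩, hfar, hΦr⟩
  · have := hb.hR; have := hb.hR₁; have := hb.hR₃; have := hb.hC
    linarith
  · intro t ht z hz
    rw [hfar t ht z hz]
    exact farU_sub hf hb ht hz

/-- The speed bound at level `N`. -/
theorem speed_N (hf : FA a n ρ A f) (hb : BU a n ρ f R C₁ R₁ R₃ ψ φ) {ζ : ℂ → ℂ}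
    (hζ : DifferentiableOn ℂ ζ (ball 0 ρ)) (hK : ∀ t ∈ ball (0 : ℂ) ρ, ζ t ∈ KJ (f t)) (N : ℕ) :
    Real.pi * ρ * ‖deriv ζ 0‖ ≤ 2 * (volume (SQ (ζ 0) (WU f R₃ N)ᶜ)).toReal := by
  have h0 := mem_ball_self (x := (0 : ℂ)) hf.ρ0
  have hR3 : 1 ≤ R₃ := by
    have := hb.hR; have := hb.hR₁; have := hb.hR₃; have := hb.hC
    linarith
  obtain ⟨Φ, hm, hfar, hr⟩ := exists_mv' hf hb N
  have hom : ∀ t ∈ ball (0 : ℂ) ρ, ∀ z ∈ WU f R₃ N, Φ t z ≠ ζ t := by
    intro t ht z hz hcon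
    have h1 := hr t ht z hz
    rw [hcon] at h1
    have h2 := hb.lt_of_mem_KJ ht (hK t ht) N
    rw [h1] at h2
    have h3 := PU_norm hf hb hz
    have h4 := hb.ψc t ht _ h3
    have h5 := norm_sub_norm_le (PU f φ N z) (ψ (t, PU f φ N z))
    rw [norm_sub_rev] at h5
    have := hb.hR₁
    have := hb.hC
    linarith
  have h1 := speed hm hζ hom
  have h2 : deriv (fun t => tc (gg (Φ t)) 1) 0 = 0 := by
    have h4 : (fun t => tc (gg (Φ t)) 1) =ᶠ[𝓝 0] fun _ => (0 : ℂ) := by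
      filter_upwards [isOpen_ball.mem_nhds h0] with t ht
      have h5 : gg (Φ t) =ᶠ[𝓝 0] gg (farU ψ φ t) := by
        have h6 : ball (0 : ℂ) R₃⁻¹ ∈ 𝓝 (0 : ℂ) := ball_mem_nhds 0 (by positivity)
        filter_upwards [h6] with x hx
        by_cases hx0 : x = 0
        · rw [hx0]
          simp [gg]
        · rw [gg_of_ne hx0, gg_of_ne hx0, hfar t ht]
          rw [norm_inv]
          exact (lt_inv_comm₀ (norm_pos_iff.2 hx0) (by linarith)).1 (mem_ball_zero_iff.mp hx)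
      rw [tc_congr h5]
      exact tc_one_farU hf hb ht
    rw [h4.deriv_eq, deriv_const]
  rw [h2, sub_zero] at h1
  exact h1

/-- The speed bound. -/
theorem speed_KJ (hf : FA a n ρ A f) (hb : BU a n ρ f R C₁ R₁ R₃ ψ φ) {ζ : ℂ → ℂ}
    (hζ : DifferentiableOn ℂ ζ (ball 0 ρ)) (hK : ∀ t ∈ ball (0 : ℂ) ρ, ζ t ∈ KJ (f t)) :
    Real.pi * ρ * ‖deriv ζ 0‖ ≤ 2 * (volume (SQ (ζ 0) (KJ (f 0)))).toReal := by
  have h0 := mem_ball_self (x := (0 : ℂ)) hf.ρ0
  have h1 := hb.hR; have h2 := hb.hC; have h3 := hb.hR₁; have h4 := hb.hR₃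
  set L : ℕ → Set ℂ := fun N => (WU f R₃ N)ᶜ with hL
  have hclosed : ∀ N, IsClosed (L N) := fun N => (isOpen_WU f R₃ N).isClosed_compl
  have hmem : ∀ N z, z ∈ L N ↔ ‖(fv f 0)^[N] z‖ ≤ R₃ := by
    intro N z
    simp only [hL, WU, mem_compl_iff, mem_ofPred, not_lt]
  have hanti : Antitone L := by
    apply antitone_nat_of_succ_le
    intro N z hz
    rw [hmem] at hz ⊢
    by_contra hcon
    have e1 : R₃ < ‖(fv f 0)^[N] z‖ := not_le.mp hcon
    have e2 := hb.large_of_large h0 e1 1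
    rw [Function.iterate_one, ← Function.iterate_succ_apply' (fv f 0)] at e2
    exact absurd hz (not_le.mpr e2)
  have hL0 : L 0 = closedBall (0 : ℂ) R₃ := by
    ext z
    rw [hmem]
    simp
  have hcomp : ∀ N, IsCompact (L N) := fun N =>
    (isCompact_closedBall (0 : ℂ) R₃).of_isClosed_subset (hclosed N)
      (by rw [← hL0]; exact hanti (Nat.zero_le N))
  have hKint : (⋂ N, L N) = KJ (f 0) := by
    ext z
    rw [mem_iInter]
    constructor
    · intro hz hcon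
      obtain ⟨k, hk⟩ := (hcon.eventually (eventually_gt_atTop R₃)).exists
      exact absurd ((hmem k z).mp (hz k)) (not_le.mpr hk)
    · intro hz k
      rw [hmem]
      have := hb.lt_of_mem_KJ h0 hz k
      linarith
  have hlim : Tendsto (fun N => volume (SQ (ζ 0) (L N))) atTop
      (𝓝 (volume (SQ (ζ 0) (KJ (f 0))))) := by
    have h1 := tendsto_measure_iInter_atTop (μ := (volume : Measure ℂ))
      (s := fun N => SQ (ζ 0) (L N))
      (fun N => (isCompact_SQ (hcomp N)).isClosed.measurableSet.nullMeasurableSet)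
      (fun i j hij => preimage_mono (hanti hij))
      ⟨0, (isCompact_SQ (hcomp 0)).measure_lt_top.ne⟩
    have h2 : ⋂ N, SQ (ζ 0) (L N) = SQ (ζ 0) (KJ (f 0)) := by
      rw [← hKint]
      unfold SQ
      rw [preimage_iInter]
    rw [h2] at h1
    exact h1
  have hfin : volume (SQ (ζ 0) (KJ (f 0))) ≠ ⊤ := by
    have h5 : volume (SQ (ζ 0) (L 0)) ≠ ⊤ := (isCompact_SQ (hcomp 0)).measure_lt_top.ne
    apply ne_top_of_le_ne_top h5
    apply measure_mono
    apply preimage_mono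
    rw [← hKint]
    exact iInter_subset _ 0
  have hlim' : Tendsto (fun N => 2 * (volume (SQ (ζ 0) (L N))).toReal) atTop
      (𝓝 (2 * (volume (SQ (ζ 0) (KJ (f 0)))).toReal)) :=
    ((ENNReal.tendsto_toReal hfin).comp hlim).const_mul _
  exact ge_of_tendsto' hlim' (fun N => speed_N hf hb hζ hK N)

end

/-- the filled Julia set is compact -/
theorem isCompact_KJ (T : ℂ[X]) (hT : 2 ≤ T.natDegree) : IsCompact (KJ T) := by
  obtain ⟨A, hA0, hA⟩ : ∃ A : ℝ, 0 ≤ A ∧ ∀ i, ‖T.coeff i‖ ≤ A := by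
    refine ⟨∑ i ∈ Finset.range (T.natDegree + 1), ‖T.coeff i‖,
      Finset.sum_nonneg fun i _ => norm_nonneg _, fun i => ?_⟩
    by_cases hi : i < T.natDegree + 1
    · exact Finset.single_le_sum (f := fun i => ‖T.coeff i‖) (fun j _ => norm_nonneg _)
        (Finset.mem_range.mpr hi)
    · rw [coeff_eq_zero_of_natDegree_lt (by omega), norm_zero]
      exact Finset.sum_nonneg fun i _ => norm_nonneg _
  have hl : 0 < ‖T.coeff T.natDegree‖ := by
    rw [norm_pos_iff, coeff_natDegree, leadingCoeff_ne_zero]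
    rintro rfl
    rw [natDegree_zero] at hT
    omega
  obtain ⟨R, hR1, hR⟩ := Pool.Agent.H792R2.Dyn.escape_radius hT hl hA0
  have hesc : ∀ z : ℂ, R ≤ ‖z‖ → 2 * ‖z‖ ≤ ‖(fun w : ℂ => T.eval w) z‖ :=
    fun z hz => hR T le_rfl le_rfl hA z hz
  have hcont : Continuous (fun w : ℂ => T.eval w) := T.continuous
  have hset : KJ T = ⋂ k : ℕ, {z : ℂ | ‖(fun w : ℂ => T.eval w)^[k] z‖ ≤ R} := by
    ext z
    rw [mem_iInter]
    constructor
    · intro hz k
      by_contra h1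
      have h1' : R ≤ ‖(fun w : ℂ => T.eval w)^[k] z‖ := (not_le.mp h1).le
      apply hz
      rw [← tendsto_add_atTop_iff_nat k]
      have h2 := Pool.Agent.H792R2.Dyn.attr_of_large (by linarith) hesc h1'
      simp only [← Function.iterate_add_apply] at h2
      exact h2
    · intro hz hcon
      obtain ⟨k, hk⟩ := (hcon.eventually (eventually_gt_atTop R)).exists
      exact absurd (hz k) (not_le.mpr hk)
  apply Metric.isCompact_of_isClosed_isBounded
  · rw [hset]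
    exact isClosed_iInter fun k => isClosed_le (hcont.iterate k).norm continuous_const
  · apply (isBounded_closedBall (x := (0 : ℂ)) (r := R)).subset
    rw [hset]
    intro z hz
    have := mem_iInter.mp hz 0
    rw [mem_closedBall_zero_iff]
    exact this

/-- the potential is bounded by the square root of the area -/
theorem pot_le' {E : Set ℂ} (hE : IsCompact E) (a : ℂ) :
    1 / Real.pi * ∫ z in E, ‖z - a‖⁻¹ ≤ 2 / √Real.pi * √((volume E).toReal) := by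
  have hpi := Real.pi_pos
  have h0 := vol_SQ_toReal a hE.isClosed.measurableSet
  have h1 := vol_SQ_le a hE
  have h2 : 2 / Real.pi * (volume (SQ a E)).toReal ≤
      2 / Real.pi * √(Real.pi * (volume E).toReal) := mul_le_mul_of_nonneg_left h1 (by positivity)
  have h5 : 1 / Real.pi * ∫ z in E, ‖z - a‖⁻¹ = 2 / Real.pi * (volume (SQ a E)).toReal := by
    rw [h0]; ring
  rw [h5]
  refine h2.trans (le_of_eq ?_)
  rw [Real.sqrt_mul hpi.le]
  have h3 : √Real.pi * √Real.pi = Real.pi := Real.mul_self_sqrt hpi.le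
  have h4 : √Real.pi ≠ 0 := (Real.sqrt_pos.mpr hpi).ne'
  rw [← mul_assoc]
  congr 1
  rw [div_mul_eq_mul_div, div_eq_div_iff hpi.ne' h4, mul_assoc, h3]

/-- **The speed of a holomorphically moving point of the filled Julia set**, for families on the unit
disc. -/
theorem family_speed {n : ℕ} (hn : 1 ≤ n) {a : ℂ} (ha : a ≠ 0) {f : ℂ → ℂ[X]}
    (hdeg : ∀ t ∈ ball (0 : ℂ) 1, (f t).natDegree ≤ n + 1)
    (hlead : ∀ t ∈ ball (0 : ℂ) 1, (f t).coeff (n + 1) = a)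
    (hsec : ∀ t ∈ ball (0 : ℂ) 1, (f t).coeff n = (f 0).coeff n)
    (hhol : ∀ j : ℕ, DifferentiableOn ℂ (fun t => (f t).coeff j) (ball 0 1))
    (hnon : ∀ t ∈ ball (0 : ℂ) 1, ∀ c : ℂ, (derivative (f t)).eval c = 0 → c ∈ KJ (f t))
    {ζ : ℂ → ℂ} (hζ : DifferentiableOn ℂ ζ (ball 0 1))
    (hK : ∀ t ∈ ball (0 : ℂ) 1, ζ t ∈ KJ (f t)) :
    Real.pi * ‖deriv ζ 0‖ ≤ 2 * (volume (SQ (ζ 0) (KJ (f 0)))).toReal := by
  have hFA : ∀ ρ : ℝ, 0 < ρ → ρ < 1 → ∃ A : ℝ, FA a n ρ A f := by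
    intro ρ hρ hρ1
    have hsub : ball (0 : ℂ) ρ ⊆ ball 0 1 := ball_subset_ball hρ1.le
    have h1 : ∀ j : ℕ, ∃ A : ℝ, 0 ≤ A ∧ ∀ t ∈ ball (0 : ℂ) ρ, ‖(f t).coeff j‖ ≤ A := by
      intro j
      obtain ⟨A, hA⟩ := (isCompact_closedBall (0 : ℂ) ρ).exists_bound_of_continuousOn
        (f := fun t => (f t).coeff j) ((hhol j).continuousOn.mono (closedBall_subset_ball hρ1))
      exact ⟨max A 0, le_max_right _ _, fun t ht =>
        (hA t (ball_subset_closedBall ht)).trans (le_max_left _ _)⟩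
    choose A hA0 hA using h1
    refine ⟨∑ i ∈ Finset.range (n + 2), A i, hρ, ha, hn, Finset.sum_nonneg fun i _ => hA0 i,
      fun t ht => hdeg t (hsub ht), fun t ht => hlead t (hsub ht), fun t ht => hsec t (hsub ht),
      fun j => (hhol j).mono hsub, ?_, fun t ht => hnon t (hsub ht)⟩
    intro t ht j
    have hB0 : 0 ≤ ∑ i ∈ Finset.range (n + 2), A i := Finset.sum_nonneg fun i _ => hA0 i
    by_cases hj : j < n + 2
    · exact (hA j t ht).trans (Finset.single_le_sum (fun j _ => hA0 j) (Finset.mem_range.mpr hj))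
    · rw [Polynomial.coeff_eq_zero_of_natDegree_lt
        (lt_of_le_of_lt (hdeg t (hsub ht)) (by omega)), norm_zero]
      exact hB0
  have key : ∀ ρ ∈ Ioo (0 : ℝ) 1, Real.pi * ρ * ‖deriv ζ 0‖ ≤
      2 * (volume (SQ (ζ 0) (KJ (f 0)))).toReal := by
    intro ρ hρ
    obtain ⟨A, hf⟩ := hFA ρ hρ.1 hρ.2
    obtain ⟨R, C₁, R₁, R₃, ψ, φ, hb⟩ := hf.exists_boett Pool.Agent.H713R3.ZA.bsum_holds
      Pool.Agent.H713R3.ZA.inv_holds
    exact speed_KJ hf hb (hζ.mono (ball_subset_ball hρ.2.le))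
      (fun t ht => hK t (ball_subset_ball hρ.2.le ht))
  have hc : Tendsto (fun r : ℝ => Real.pi * r * ‖deriv ζ 0‖) (𝓝[<] 1)
      (𝓝 (Real.pi * 1 * ‖deriv ζ 0‖)) := by
    apply Tendsto.mono_left _ nhdsWithin_le_nhds
    exact (Continuous.tendsto (by fun_prop) 1)
  rw [mul_one] at hc
  apply le_of_tendsto hc
  filter_upwards [Ioo_mem_nhdsLT (show (0 : ℝ) < 1 by norm_num)] with r hr using key r hr

end Pool.Agent.H46FS
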