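import Pool.Agent.H46FS.Tra
import Pool.Agent.H69N.LA.Uni

/-!
# The speed of the points of the filled Julia sets in holomorphic families of polynomials

Along a holomorphic family of polynomials `f t`, `|t| < 1`, of degree `d` (with constant coefficients
of `z ^ d` and `z ^ (d - 1)`) in which no critical point escapes, every point of the filled Julia
set which moves holomorphically, and the whole forward orbit of this point, moves with speed at most

`(1 / π) ∫ dA(z) / |z - ζ 0| ≤ (2 / √π) √(area K)`,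

where `K` is the filled Julia set of `f 0`. In particular the derivatives of the critical orbits with
respect to the parameter are bounded by the area of the filled Julia set.
-/

set_option autoImplicit false

open Filter Topology Polynomial MeasureTheory Metric

namespace Pool.Agent.Results.MP_28f8a1_an.OrbitSpeed

/-- The polynomial as a self-map of the plane. -/
def map (T : ℂ[X]) : ℂ → ℂ := fun w : ℂ => T.eval w

/-- The orbit of `z` escapes to infinity. -/
def Escapes (T : ℂ[X]) (z : ℂ) : Prop :=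
  Tendsto (fun k : ℕ => ‖(map T)^[k] z‖) atTop atTop

/-- The filled Julia set of `T`: the points which do not escape. -/
def Ks (T : ℂ[X]) : Set ℂ := {z : ℂ | ¬ Escapes T z}

/-- `(1 / π) ∫ dA(z) / |z - a|` over the set `E`. -/
noncomputable def pot (E : Set ℂ) (a : ℂ) : ℝ := 1 / Real.pi * ∫ z in E, ‖z - a‖⁻¹

/-- `(2 / √π)` times the square root of the area of `E`. -/
noncomputable def rootArea (E : Set ℂ) : ℝ := 2 / √Real.pi * √((volume E).toReal)

/-- (1) The speed of the holomorphically moving points of the filled Julia sets, and of all the points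
of their orbits, in holomorphic families of polynomials without escaping critical points. (2) The
potential is bounded by the square root of the area. -/
theorem result :
    (∀ (d : ℕ) (f : ℂ → ℂ[X]), 2 ≤ d →
      (∀ t ∈ ball (0 : ℂ) 1, (f t).natDegree = d ∧ (f t).leadingCoeff = (f 0).leadingCoeff ∧
        (f t).coeff (d - 1) = (f 0).coeff (d - 1)) →
      (∀ j : ℕ, DifferentiableOn ℂ (fun t => (f t).coeff j) (ball 0 1)) →
      (∀ t ∈ ball (0 : ℂ) 1, ∀ c : ℂ, (derivative (f t)).eval c = 0 → ¬ Escapes (f t) c) →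
      ∀ ζ : ℂ → ℂ, DifferentiableOn ℂ ζ (ball 0 1) →
      (∀ t ∈ ball (0 : ℂ) 1, ¬ Escapes (f t) (ζ t)) → ∀ n : ℕ,
        ‖deriv (fun t => (map (f t))^[n] (ζ t)) 0‖ ≤ pot (Ks (f 0)) ((map (f 0))^[n] (ζ 0))) ∧
    (∀ T : ℂ[X], 2 ≤ T.natDegree → ∀ a : ℂ, pot (Ks T) a ≤ rootArea (Ks T)) := by
  have hpi := Real.pi_pos
  have hK : ∀ T : ℂ[X], Pool.Agent.H713R3.ZA.KJ T = Ks T := fun _ => rfl
  have hKc : ∀ T : ℂ[X], 2 ≤ T.natDegree → IsCompact (Ks T) := fun T hT => by
    rw [← hK]; exact Pool.Agent.H46FS.isCompact_KJ T hT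
  have hpot : ∀ (E : Set ℂ), IsCompact E → ∀ a : ℂ, pot E a =
      2 / Real.pi * (volume (Pool.Agent.H46MB.SQ a E)).toReal := by
    intro E hE a
    rw [Pool.Agent.H46MB.vol_SQ_toReal a hE.isClosed.measurableSet]
    unfold pot
    ring
  refine ⟨?_, fun T hT a => ?_⟩
  · intro d f hd hf hhol hnon ζ hζ hζK n
    obtain ⟨m, rfl⟩ : ∃ m, d = m + 1 := ⟨d - 1, by omega⟩
    have h0mem : (0 : ℂ) ∈ ball (0 : ℂ) 1 := mem_ball_self one_pos
    have hm : 1 ≤ m := by omega
    have hlead : ∀ t ∈ ball (0 : ℂ) 1, (f t).coeff (m + 1) = (f 0).leadingCoeff := by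
      intro t ht
      obtain ⟨e1, e2, -⟩ := hf t ht
      rw [← e2, ← coeff_natDegree, e1]
    have ha : (f 0).leadingCoeff ≠ 0 := by
      rw [leadingCoeff_ne_zero]
      intro h
      have := (hf 0 h0mem).1
      rw [h, natDegree_zero] at this
      omega
    have h1 := Pool.Agent.H46FS.family_speed hm ha (f := f) (fun t ht => (hf t ht).1.le) hlead
      (fun t ht => (hf t ht).2.2) hhol (fun t ht c hc => hnon t ht c hc)
      (ζ := fun t => (map (f t))^[n] (ζ t))
      (Pool.Agent.H46FS.iter_hol (fun t ht => (hf t ht).1.le) hhol hζ n)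
      (fun t ht => Pool.Agent.H46FS.KJ_iter (f t) (hζK t ht) n)
    have hT : 2 ≤ (f 0).natDegree := by rw [(hf 0 h0mem).1]; exact hd
    rw [hpot _ (hKc _ hT), div_mul_eq_mul_div, le_div_iff₀ hpi, mul_comm _ Real.pi]
    exact h1
  · exact Pool.Agent.H46FS.pot_le' (hKc T hT) a

end Pool.Agent.Results.MP_28f8a1_an.OrbitSpeed
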