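import Mathlib
import Pool.Agent.H69N.LA.Tr
import Pool.Agent.H46FS.Fam

/-!
# Translations: the derivatives of the critical orbits and the distance to capture
-/

set_option autoImplicit false

open Complex Topology Filter Metric MeasureTheory Set Polynomial

namespace Pool.Agent.H46FS

open Pool.Agent.H69N.LA
open Pool.Agent.H713R3.ZA (StROOT StINV StBSUM KJ QQ)
open Pool.Agent.H713R5.QJ (ev Sk AT Good Para Sieg JS)
open Pool.Agent.H46MB (SQ isCompact_SQ vol_SQ_toReal vol_SQ_le)

/-- polynomial families: iterates depend holomorphically on the parameter -/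
theorem iter_hol {n : ℕ} {ρ : ℝ} {f : ℂ → ℂ[X]}
    (hdeg : ∀ t ∈ ball (0 : ℂ) ρ, (f t).natDegree ≤ n + 1)
    (hhol : ∀ j : ℕ, DifferentiableOn ℂ (fun t => (f t).coeff j) (ball 0 ρ))
    {ζ : ℂ → ℂ} (hζ : DifferentiableOn ℂ ζ (ball 0 ρ)) (k : ℕ) :
    DifferentiableOn ℂ (fun t => (fun w : ℂ => (f t).eval w)^[k] (ζ t)) (ball 0 ρ) := by
  induction k with
  | zero => exact hζ
  | succ k ih =>
    have h : ∀ t ∈ ball (0 : ℂ) ρ, (fun w : ℂ => (f t).eval w)^[k + 1] (ζ t) =
        ∑ i ∈ Finset.range (n + 2), (f t).coeff i * ((fun w : ℂ => (f t).eval w)^[k] (ζ t)) ^ i := by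
      intro t ht
      rw [Function.iterate_succ_apply']
      exact Polynomial.eval_eq_sum_range' (lt_of_le_of_lt (hdeg t ht) (by omega)) _
    refine DifferentiableOn.congr ?_ h
    apply DifferentiableOn.fun_sum
    intro i _
    exact (hhol i).mul (ih.pow i)

theorem KJ_iter (T : ℂ[X]) {z : ℂ} (hz : z ∈ KJ T) (k : ℕ) :
    (fun w : ℂ => T.eval w)^[k] z ∈ KJ T := by
  intro h
  apply hz
  rw [← tendsto_add_atTop_iff_nat k]
  simp only [← Function.iterate_add_apply] at h
  exact h

/-- The bound for holomorphic discs of translations without captured critical points. -/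
theorem translation_speed (T : ℂ[X]) (hT : 2 ≤ T.natDegree) {g : ℂ → ℂ}
    (hg : DifferentiableOn ℂ g (ball 0 1)) (hg0 : g 0 = 0)
    (hc : ∀ s ∈ ball (0 : ℂ) 1, ∀ c : ℂ, (derivative T).eval c = 0 → ¬ Good (ev (T + C (g s))) c)
    {c : ℂ} (hcc : (derivative T).eval c = 0) (k : ℕ) :
    deriv g 0 = 0 ∨ KJ T = JS T ∧
    Real.pi * (‖deriv (fun s : ℂ => (fun w : ℂ => (T + C s).eval w)^[k] c) 0‖ * ‖deriv g 0‖) ≤
      2 * (volume (SQ ((fun w : ℂ => T.eval w)^[k] c) (JS T))).toReal := by
  obtain ⟨n, hn⟩ : ∃ n, T.natDegree = n + 1 := ⟨T.natDegree - 1, by omega⟩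
  have hn1 : 1 ≤ n := by omega
  set a := T.coeff (n + 1) with ha
  have hal : T.leadingCoeff = a := by rw [ha, ← hn, coeff_natDegree]
  have ha0 : a ≠ 0 := by
    rw [← hal, leadingCoeff_ne_zero]
    rintro rfl
    rw [natDegree_zero] at hT
    omega
  have h0mem : (0 : ℂ) ∈ ball (0 : ℂ) 1 := mem_ball_self one_pos
  by_cases hg' : deriv g 0 = 0
  · exact Or.inl hg'
  refine Or.inr ?_
  -- open mapping
  have han : AnalyticAt ℂ g 0 := hg.analyticAt (isOpen_ball.mem_nhds h0mem)
  have hopen : 𝓝 (g 0) ≤ map g (𝓝 0) := by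
    rcases han.eventually_constant_or_nhds_le_map_nhds with h | h
    · exfalso
      apply hg'
      have h1 : g =ᶠ[𝓝 0] fun _ => g 0 := h
      rw [h1.deriv_eq, deriv_const]
    · exact h
  have himg : g '' ball 0 1 ∈ 𝓝 (0 : ℂ) := by
    rw [hg0] at hopen
    exact hopen (image_mem_map (isOpen_ball.mem_nhds h0mem))
  obtain ⟨ε, hε, hball⟩ := Metric.mem_nhds_iff.mp himg
  have hKJ : KJ T = JS T := by
    apply Subset.antisymm _ (JS_sub_KJ T)
    apply KJ_sub_JS T hT hε
    intro t ht c hcc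
    obtain ⟨s, hs, rfl⟩ := hball (mem_ball_zero_iff.mpr ht)
    exact hc s hs c hcc
  refine ⟨hKJ, ?_⟩
  have hcoef : ∀ s j, (T + C (g s)).coeff j = T.coeff j + if j = 0 then g s else 0 := by
    intro s j
    rw [coeff_add, coeff_C]
  have hdeg : ∀ s ∈ ball (0 : ℂ) 1, (T + C (g s)).natDegree ≤ n + 1 := fun s _ => by
    rw [natDegree_add_C, hn]
  have hhol : ∀ j : ℕ, DifferentiableOn ℂ (fun s => (T + C (g s)).coeff j) (ball 0 1) := by
    intro j
    simp only [hcoef]
    by_cases hj : j = 0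
    · simp only [if_pos hj]
      exact hg.const_add _
    · simp only [if_neg hj]
      exact differentiableOn_const _
  have hnon : ∀ s ∈ ball (0 : ℂ) 1, ∀ c : ℂ, (derivative (T + C (g s))).eval c = 0 →
      c ∈ KJ (T + C (g s)) := by
    intro s hs c hcc
    rw [derivative_add, derivative_C, add_zero] at hcc
    intro h
    exact hc s hs c hcc (Or.inl h)
  set ζ : ℂ → ℂ := fun t => (fun w : ℂ => (T + C (g t)).eval w)^[k] c with hζ
  have hζd : DifferentiableOn ℂ ζ (ball 0 1) :=
    iter_hol (f := fun t => T + C (g t)) hdeg hhol (differentiableOn_const c) k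
  have hζK : ∀ t ∈ ball (0 : ℂ) 1, ζ t ∈ KJ (T + C (g t)) := by
    intro t ht
    apply KJ_iter
    apply hnon t ht
    rw [derivative_add, derivative_C, add_zero]
    exact hcc
  have h1 := family_speed hn1 ha0 (f := fun s => T + C (g s)) hdeg
    (fun s _ => by rw [hcoef, if_neg (by omega), add_zero])
    (fun s _ => by rw [hcoef, hcoef, if_neg (by omega), if_neg (by omega)]) hhol hnon hζd hζK
  have e0 : T + C (g 0) = T := by rw [hg0, C_0, add_zero]
  have e1 : ζ 0 = (fun w : ℂ => T.eval w)^[k] c := by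
    simp only [hζ]
    rw [e0]
  have hFd : DifferentiableAt ℂ (fun s : ℂ => (fun w : ℂ => (T + C s).eval w)^[k] c) 0 := by
    have h2 : DifferentiableOn ℂ (fun s : ℂ => (fun w : ℂ => (T + C s).eval w)^[k] c)
        (ball 0 1) := by
      apply iter_hol (f := fun s => T + C s) (n := n)
      · intro s _; rw [natDegree_add_C, hn]
      · intro j
        simp only [coeff_add, coeff_C]
        by_cases hj : j = 0
        · simp only [if_pos hj]
          fun_prop
        · simp only [if_neg hj]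
          exact differentiableOn_const _
      · exact differentiableOn_const c
    exact h2.differentiableAt (isOpen_ball.mem_nhds h0mem)
  have e2 : deriv ζ 0 = deriv (fun s : ℂ => (fun w : ℂ => (T + C s).eval w)^[k] c) 0 * deriv g 0 := by
    have h3 : HasDerivAt (fun s : ℂ => (fun w : ℂ => (T + C s).eval w)^[k] c)
        (deriv (fun s : ℂ => (fun w : ℂ => (T + C s).eval w)^[k] c) 0) (g 0) := by
      rw [hg0]
      exact hFd.hasDerivAt
    have h4 : HasDerivAt g (deriv g 0) 0 :=
      (hg.differentiableAt (isOpen_ball.mem_nhds h0mem)).hasDerivAt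
    exact (h3.comp (0 : ℂ) h4).deriv
  simp only [e0] at h1
  rw [e2, norm_mul, hKJ, e1] at h1
  exact h1

end Pool.Agent.H46FS
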